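import Pool.Agent.W2helper44.MW.Indep

/-!
# MP_855f4c_ag: a numerical criterion for the weight-monodromy conjecture for threefolds
-/

set_option autoImplicit false

open Module

universe u v

namespace Pool.Agent.Results.MP_855f4c_ag.CriterionForThreefolds

open Pool.Agent.Y143 Pool.Agent.W2helper44.MW

/-- **A numerical criterion for the weight-monodromy conjecture for threefolds.** Let `X_K` be a
smooth projective threefold over a local field `K` with residue field with `q` elements, with a
projective strictly semistable model, and let `X` be the corresponding data in a cohomology theory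
(cohomology of the strata `Y^(a+1)` of the special fibre and of the geometric generic fibre, weight
spectral sequence). Let
`T = L⁻¹ ∘ τ ∘ ρ : H^2(Y^(1)) → H^2(Y^(2)) → H^4(Y^(1)) ≅ H^2(Y^(1))`
be the transform (`ρ` the restriction, `τ` the Gysin map, `L` the Lefschetz operator). The
weight-monodromy conjecture holds for `X` (in all degrees) if and only if the multiplicity of the
root `0` of the characteristic polynomial of `T` is equal to
`dim gr_2 H^2 - dim gr_4 H^2 - dim gr_2 H^1 - dim gr_0 H^0 + dim H^0(Y^(1)) + dim H^0(Y^(2))`,
a number which does not depend on `H^3`. -/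
theorem result {Ω : Type u} [Field Ω] [CharZero Ω] [IsAlgClosed Ω] {Γ : Type} {q : ℕ} (hq : 1 < q)
    (X : Degeneration.{u, v} Ω Γ 3 q) (A : DivisorClasses X.toSpecialFibre)
    (T : EndH2 X.toSpecialFibre) (hT : IsTransform X.toSpecialFibre T) :
    WeightMonodromy X.toSemistableModel ↔
      ((charpolyH2 X.toSpecialFibre T).rootMultiplicity 0 : ℤ) = expected X.toSemistableModel :=
  mw_iff hq X A hT

end Pool.Agent.Results.MP_855f4c_ag.CriterionForThreefolds
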